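import Pool.Agent.Y883.GJ.Stm
import Pool.Agent.TH935.LP.L1

set_option autoImplicit false

/-! GJ-MINF: the difference `Lambda - lsh` on the minor arcs, all characters modulo `q`. -/

namespace Pool.Agent.Y510.GJ

open Finset
open Pool.Agent.Y883.GJ
open Pool.Agent.H807R2.Dav (ee norm_ee)
open Pool.Agent.H373R2.T7 (lamz Vz pz)
open Pool.Agent.Y883.T3 (lsh)
open Pool.Agent.TH935.LD (ev_L' tau_pow_sum)

lemma norm_ev_le {q : ℕ} [NeZero q] (S : Finset (DirichletCharacter ℂ q)) (β : ℝ) (n : ℕ) :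
    ‖ev S β n‖ ≤ Real.sqrt q := by
  classical
  rw [EuclideanSpace.norm_eq]
  apply Real.sqrt_le_sqrt
  have h1 : ∀ χ ∈ (univ : Finset (DirichletCharacter ℂ q)), ‖ev S β n χ‖ ^ 2 ≤ 1 := by
    intro χ _
    have h2 : ‖ev S β n χ‖ ≤ 1 := by
      unfold ev
      simp only
      split_ifs
      · rw [norm_mul, norm_ee, mul_one]
        exact DirichletCharacter.norm_le_one χ _
      · simp
    exact pow_le_one₀ (norm_nonneg _) h2
  refine (sum_le_sum h1).trans ?_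
  rw [sum_const, nsmul_eq_mul, mul_one, card_univ, ← Nat.card_eq_fintype_card,
    DirichletCharacter.card_eq_totient_of_hasEnoughRootsOfUnity]
  exact_mod_cast Nat.totient_le q

lemma csm {ι : Type} [Fintype ι] (x : ℝ) (v : EuclideanSpace ℂ ι) : ((x : ℝ) : ℂ) • v = x • v := by
  ext i
  simp

lemma sum_cs {q N : ℕ} [NeZero q] (F : ℕ → ℂ) (β : ℝ) :
    ∑ χ : DirichletCharacter ℂ q, ‖cs q N F β χ‖ ^ 2 =
      ‖∑ n ∈ Icc 1 N, F n • ev (univ : Finset (DirichletCharacter ℂ q)) β n‖ ^ 2 := by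
  classical
  rw [EuclideanSpace.norm_sq_eq]
  refine sum_congr rfl fun χ _ => ?_
  congr 2
  unfold cs
  rw [WithLp.ofLp_sum, Finset.sum_apply]
  refine sum_congr rfl fun n _ => ?_
  unfold ev
  simp [mul_assoc]

lemma abs_bt_le (U b : ℕ) : |bt U b| ≤ (b.divisors.card : ℝ) := by
  unfold bt
  refine (abs_sum_le_sum_abs _ _).trans ?_
  have h1 : ∀ e ∈ b.divisors.filter (fun e => U < e),
      |((ArithmeticFunction.moebius e : ℤ) : ℝ)| ≤ 1 := by
    intro e _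
    exact_mod_cast ArithmeticFunction.abs_moebius_le_one
  refine (sum_le_sum h1).trans ?_
  rw [sum_const, nsmul_eq_mul, mul_one]
  exact_mod_cast card_le_card (filter_subset _ _)

lemma bt_zero {U b : ℕ} (h : b ≤ U) : bt U b = 0 := by
  unfold bt
  apply sum_eq_zero
  intro e he
  rw [mem_filter] at he
  have := Nat.divisor_le he.1
  omega

lemma lv_zero {U b : ℕ} (h : b ≤ U) : lv U b = 0 := by
  unfold lv
  rw [if_neg (by omega)]

lemma tau_one_le {c : ℕ} (h : 1 ≤ c) : (1 : ℝ) ≤ (c.divisors.card : ℝ) := by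
  have : 0 < c.divisors.card := card_pos.2 ⟨1, Nat.one_mem_divisors.2 (by omega)⟩
  exact_mod_cast this

lemma abs_lv_le {U c N : ℕ} (hc : c ∈ Icc 1 N) : |lv U c| ≤ Real.log N * (c.divisors.card : ℝ) := by
  rw [mem_Icc] at hc
  have hc1 : (1 : ℝ) ≤ c := by exact_mod_cast hc.1
  have hcN : (c : ℝ) ≤ N := by exact_mod_cast hc.2
  have hL : 0 ≤ Real.log N := Real.log_nonneg (hc1.trans hcN)
  have h1 := tau_one_le hc.1
  unfold lv
  split_ifs
  · rw [abs_of_nonneg ArithmeticFunction.vonMangoldt_nonneg]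
    have h2 : ArithmeticFunction.vonMangoldt c ≤ Real.log c := ArithmeticFunction.vonMangoldt_le_log
    have h3 : Real.log c ≤ Real.log N := Real.log_le_log (by linarith) hcN
    nlinarith
  · rw [abs_zero]
    positivity

/-- the mean square of a coefficient bounded by the divisor function -/
lemma sq_sum_le {N X : ℕ} (hX : X ≤ N) (hX1 : 1 ≤ X) (a : ℕ → ℂ)
    (ha : ∀ m ∈ Icc 1 N, ‖a m‖ ≤ Real.log N * (m.divisors.card : ℝ)) (s : Finset ℕ) (hs : s ⊆ Icc 1 X) :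
    ∑ m ∈ s, ‖a m‖ ^ 2 ≤ Real.log N ^ 2 * (X * (1 + Real.log N) ^ 4) := by
  have hXr : (1 : ℝ) ≤ X := by exact_mod_cast hX1
  have hXN : (X : ℝ) ≤ N := by exact_mod_cast hX
  have hl0 : 0 ≤ Real.log X := Real.log_nonneg hXr
  have hl : Real.log X ≤ Real.log N := Real.log_le_log (by linarith) hXN
  have h1 : ∀ m ∈ s, ‖a m‖ ^ 2 ≤ Real.log N ^ 2 * (m.divisors.card : ℝ) ^ 2 := by
    intro m hm
    have h2 := mem_Icc.1 (hs hm)
    have h3 := ha m (mem_Icc.2 ⟨h2.1, h2.2.trans hX⟩)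
    rw [← mul_pow]
    exact pow_le_pow_left₀ (norm_nonneg _) h3 2
  refine (sum_le_sum h1).trans ?_
  rw [← mul_sum]
  apply mul_le_mul_of_nonneg_left _ (by positivity)
  refine (sum_le_sum_of_subset_of_nonneg hs fun i _ _ => by positivity).trans ?_
  refine (tau_pow_sum 2 X).trans ?_
  have h4 : (2 : ℕ) ^ 2 = 4 := by norm_num
  rw [h4]
  apply mul_le_mul_of_nonneg_left _ (by positivity)
  exact pow_le_pow_left₀ (by linarith) (by linarith) 4

/-- dyadic decomposition -/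
lemma dyad {V : Type} [AddCommMonoid V] (f : ℕ → V) (J : ℕ) :
    ∑ m ∈ Ioc 1 (2 ^ J), f m = ∑ i ∈ range J, ∑ m ∈ Ioc (2 ^ i) (2 * 2 ^ i), f m := by
  induction J with
  | zero => simp
  | succ J ih =>
    rw [sum_range_succ, ← ih, ← pow_succ']
    rw [sum_Ioc_consecutive f (Nat.one_le_two_pow) (Nat.pow_le_pow_right (by norm_num) (by omega))]

/-- the bilinear sum with a small variable in `(U, √N]` -/
lemma bil {q N U k C : ℕ} [NeZero q] {K : ℝ} {β : ℝ} (hK : 1 ≤ K)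
    (hB : ∀ (M : ℕ) (a b : ℕ → ℂ), 1 ≤ M → M ≤ N →
      ‖∑ m ∈ Ioc M (2 * M), ∑ j ∈ Icc 1 (N / m),
        (a m * b j) • ev (univ : Finset (DirichletCharacter ℂ q)) β (m * j)‖ ^ 2 ≤
      K * (∑ m ∈ Ioc M (2 * M), ‖a m‖ ^ 2) * (∑ j ∈ Icc 1 (N / M), ‖b j‖ ^ 2) *
      (q * (M + (N : ℝ) / (q * k) + (N : ℝ) / (q * M) + k) * (1 + Real.log k)))
    (hN : 4 ≤ N) (hk : 1 ≤ k) (hkN : k ≤ N) (hL : 4096 * K ≤ Real.log N)
    (hX : ∀ X : ℝ, 0 ≤ X → X * X ≤ N → q * X * Real.log N ^ C ≤ N)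
    (hk1 : Real.log N ^ C ≤ k) (hk2 : (q : ℝ) * k * Real.log N ^ C ≤ N) (hU2 : 2 ≤ U)
    (hU : 2 * Real.log N ^ C ≤ U)
    (a b : ℕ → ℂ) (ha : ∀ m ∈ Icc 1 N, ‖a m‖ ≤ Real.log N * (m.divisors.card : ℝ))
    (hb : ∀ m ∈ Icc 1 N, ‖b m‖ ≤ Real.log N * (m.divisors.card : ℝ))
    (ha0 : ∀ m, m ≤ U → a m = 0) (ha1 : ∀ m, N < m * m → a m = 0) :
    ‖∑ m ∈ Icc 1 N, ∑ j ∈ Icc 1 (N / m),
        (a m * b j) • ev (univ : Finset (DirichletCharacter ℂ q)) β (m * j)‖ ≤
      3 * Real.log N * Real.sqrt (Real.log N ^ 14 * ((N : ℝ) ^ 2 / Real.log N ^ C)) := by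
  obtain ⟨L, hLd⟩ : ∃ L, L = Real.log (N : ℝ) := ⟨_, rfl⟩
  rw [← hLd] at hL hX hk1 hk2 hU ha hb ⊢
  have hL1 : 4096 ≤ L := by nlinarith
  have hL0 : 0 < L := by linarith
  have hNr : (4 : ℝ) ≤ N := by exact_mod_cast hN
  have hN0 : (0 : ℝ) < N := by linarith
  have hLC : 0 < L ^ C := by positivity
  have hkr : (1 : ℝ) ≤ k := by exact_mod_cast hk
  have hkNr : (k : ℝ) ≤ N := by exact_mod_cast hkN
  have hq0 : (0 : ℝ) < q := by exact_mod_cast Nat.pos_of_ne_zero (NeZero.ne q)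
  have hlk : Real.log k ≤ L := by rw [hLd]; exact Real.log_le_log (by linarith) hkNr
  have hlk0 : 0 ≤ Real.log k := Real.log_nonneg hkr
  obtain ⟨f, hf⟩ : ∃ f : ℕ → EuclideanSpace ℂ (DirichletCharacter ℂ q), f = fun m => ∑ j ∈ Icc 1 (N / m),
        (a m * b j) • ev (univ : Finset (DirichletCharacter ℂ q)) β (m * j) := ⟨_, rfl⟩
  have hf0 : ∀ m, a m = 0 → f m = 0 := by
    intro m hm
    rw [hf]
    simp only [hm, zero_mul, zero_smul, sum_const_zero]
  obtain ⟨J, hJ⟩ : ∃ J, J = Nat.log 2 N + 1 := ⟨_, rfl⟩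
  have hJN : N < 2 ^ J := by
    rw [hJ]
    exact Nat.lt_pow_succ_log_self (by norm_num) N
  have hJL : (J : ℝ) ≤ 3 * L := by
    have h1 : (2 : ℝ) ^ (Nat.log 2 N) ≤ N := by exact_mod_cast Nat.pow_log_le_self 2 (by omega)
    have h2 : (Nat.log 2 N : ℝ) * Real.log 2 ≤ L := by
      rw [hLd, ← Real.log_pow]
      exact Real.log_le_log (by positivity) h1
    have h3 : (0.69 : ℝ) < Real.log 2 := by
      have := Real.log_two_gt_d9; linarith
    have h4 : (0 : ℝ) ≤ (Nat.log 2 N : ℝ) := Nat.cast_nonneg _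
    rw [hJ]; push_cast
    nlinarith
  have hsum : ∑ m ∈ Icc 1 N, f m = ∑ i ∈ range J, ∑ m ∈ Ioc (2 ^ i) (2 * 2 ^ i), f m := by
    rw [← dyad]
    have e1 : ∑ m ∈ Ioc 1 N, f m = ∑ m ∈ Icc 1 N, f m := by
      apply sum_subset
      · intro m hm
        rw [mem_Ioc] at hm
        rw [mem_Icc]
        omega
      · intro m hm1 hm2
        rw [mem_Icc] at hm1
        rw [mem_Ioc] at hm2
        apply hf0
        apply ha0
        omega
    have e2 : ∑ m ∈ Ioc 1 N, f m = ∑ m ∈ Ioc 1 (2 ^ J), f m := by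
      apply sum_subset
      · intro m hm
        rw [mem_Ioc] at hm ⊢
        omega
      · intro m hm1 hm2
        rw [mem_Ioc] at hm1 hm2
        apply hf0
        apply ha1
        have : N < m := by omega
        nlinarith
    rw [← e1, e2]
  have hblk : ∀ i ∈ range J, ‖∑ m ∈ Ioc (2 ^ i) (2 * 2 ^ i), f m‖ ≤
      Real.sqrt (L ^ 14 * ((N : ℝ) ^ 2 / L ^ C)) := by
    intro i _
    obtain ⟨M, hM⟩ : ∃ M : ℕ, M = 2 ^ i := ⟨_, rfl⟩
    rw [← hM]
    by_cases hc1 : 2 * M ≤ U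
    · rw [sum_eq_zero, norm_zero]
      · exact Real.sqrt_nonneg _
      · intro m hm
        rw [mem_Ioc] at hm
        exact hf0 m (ha0 m (by omega))
    by_cases hc2 : N < M * M
    · rw [sum_eq_zero, norm_zero]
      · exact Real.sqrt_nonneg _
      · intro m hm
        rw [mem_Ioc] at hm
        apply hf0 m (ha1 m _)
        nlinarith
    have hM2 : 2 ≤ M := by omega
    have hMM : M * M ≤ N := by omega
    have h2M : 2 * M ≤ N := by nlinarith
    have hMN : M ≤ N := by omega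
    have hMr : (2 : ℝ) ≤ M := by exact_mod_cast hM2
    have hM0 : (0 : ℝ) < M := by linarith
    have hMMr : (M : ℝ) * M ≤ N := by exact_mod_cast hMM
    have hUM : L ^ C ≤ M := by
      have h5 : (U : ℝ) < 2 * M := by exact_mod_cast (show U < 2 * M by omega)
      linarith
    have h6 := hB M a b (by omega) hMN
    have hS1 := sq_sum_le h2M (by omega) a (by rw [← hLd]; exact ha) (Ioc M (2 * M)) (by
      intro m hm
      rw [mem_Ioc] at hm
      rw [mem_Icc]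
      omega)
    have hS2 := sq_sum_le (Nat.div_le_self N M) (Nat.div_pos hMN (by omega)) b (by rw [← hLd]; exact hb)
      (Icc 1 (N / M)) (subset_refl _)
    rw [← hLd] at hS1 hS2
    push_cast at hS1
    obtain ⟨R, hR⟩ : ∃ R, R = (N : ℝ) / L ^ C := ⟨_, rfl⟩
    have hR0 : 0 < R := by rw [hR]; positivity
    have t1 : (q : ℝ) * M ≤ R := by
      rw [hR, le_div_iff₀ hLC]
      exact hX M hM0.le hMMr
    have t2 : (N : ℝ) / k ≤ R := by
      rw [hR]
      exact div_le_div_of_nonneg_left hN0.le hLC hk1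
    have t3 : (N : ℝ) / M ≤ R := by
      rw [hR]
      exact div_le_div_of_nonneg_left hN0.le hLC hUM
    have t4 : (q : ℝ) * k ≤ R := by
      rw [hR, le_div_iff₀ hLC]
      exact hk2
    have t5 : (q : ℝ) * (M + (N : ℝ) / (q * k) + (N : ℝ) / (q * M) + k) ≤ 4 * R := by
      have e : (q : ℝ) * (M + (N : ℝ) / (q * k) + (N : ℝ) / (q * M) + k) =
          q * M + N / k + N / M + q * k := by
        field_simp
      rw [e]
      linarith
    have t6 : 1 + Real.log k ≤ 2 * L := by linarith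
    have hS1' : ∑ m ∈ Ioc M (2 * M), ‖a m‖ ^ 2 ≤ L ^ 2 * (2 * M * (2 * L) ^ 4) := by
      refine hS1.trans ?_
      gcongr
      linarith
    have hS2' : ∑ m ∈ Icc 1 (N / M), ‖b m‖ ^ 2 ≤ L ^ 2 * (N / M * (2 * L) ^ 4) := by
      refine hS2.trans ?_
      have h7 : ((N / M : ℕ) : ℝ) ≤ (N : ℝ) / M := Nat.cast_div_le
      gcongr
      linarith
    have h8 : (0 : ℝ) ≤ (q : ℝ) * (M + (N : ℝ) / (q * k) + (N : ℝ) / (q * M) + k) := by positivity
    have h9 : (0 : ℝ) ≤ 1 + Real.log k := by linarith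
    have h10 : K * (∑ m ∈ Ioc M (2 * M), ‖a m‖ ^ 2) * (∑ j ∈ Icc 1 (N / M), ‖b j‖ ^ 2) *
      (q * (M + (N : ℝ) / (q * k) + (N : ℝ) / (q * M) + k) * (1 + Real.log k)) ≤
      K * (L ^ 2 * (2 * M * (2 * L) ^ 4)) * (L ^ 2 * (N / M * (2 * L) ^ 4)) * ((4 * R) * (2 * L)) := by
      gcongr
    apply Real.le_sqrt_of_sq_le
    have h11 : ‖∑ m ∈ Ioc M (2 * M), f m‖ ^ 2 ≤
        K * (L ^ 2 * (2 * M * (2 * L) ^ 4)) * (L ^ 2 * (N / M * (2 * L) ^ 4)) * ((4 * R) * (2 * L)) := by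
      rw [hf]
      exact h6.trans h10
    refine h11.trans ?_
    have h12 : K * (L ^ 2 * (2 * M * (2 * L) ^ 4)) * (L ^ 2 * (N / M * (2 * L) ^ 4)) * ((4 * R) * (2 * L)) =
        (4096 * K) * (L ^ 13 * (N * R)) := by
      field_simp
      ring
    rw [h12]
    have h13 : L ^ 14 * ((N : ℝ) ^ 2 / L ^ C) = L * (L ^ 13 * (N * R)) := by
      rw [hR]; ring
    rw [h13]
    exact mul_le_mul_of_nonneg_right hL (by positivity)
  have hfin : ‖∑ m ∈ Icc 1 N, f m‖ ≤ 3 * L * Real.sqrt (L ^ 14 * ((N : ℝ) ^ 2 / L ^ C)) := by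
    rw [hsum]
    refine (norm_sum_le _ _).trans ?_
    refine (sum_le_sum hblk).trans ?_
    rw [sum_const, card_range, nsmul_eq_mul]
    exact mul_le_mul_of_nonneg_right hJL (Real.sqrt_nonneg _)
  rw [hf] at hfin
  exact hfin

/-- splitting according to the smaller variable -/
lemma split {V : Type} [AddCommMonoid V] (g : ℕ → ℕ → V) (N : ℕ) :
    ∑ b ∈ Icc 1 N, ∑ c ∈ Icc 1 (N / b), g b c =
      ∑ b ∈ Icc 1 N, ∑ c ∈ Icc 1 (N / b), (if b * b ≤ N then g b c else 0) +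
      ∑ c ∈ Icc 1 N, ∑ b ∈ Icc 1 (N / c), (if c * c ≤ N ∧ N < b * b then g b c else 0) := by
  have h1 : ∑ c ∈ Icc 1 N, ∑ b ∈ Icc 1 (N / c), (if c * c ≤ N ∧ N < b * b then g b c else 0) =
      ∑ b ∈ Icc 1 N, ∑ c ∈ Icc 1 (N / b), (if c * c ≤ N ∧ N < b * b then g b c else 0) := by
    apply sum_comm'
    intro c b
    simp only [mem_Icc]
    constructor
    · rintro ⟨⟨h1, h2⟩, h3, h4⟩
      rw [Nat.le_div_iff_mul_le (by omega)] at h4 
      refine ⟨⟨h1, ?_⟩, h3, ?_⟩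
      · rw [Nat.le_div_iff_mul_le (by omega)]
        linarith [mul_comm b c]
      · nlinarith
    · rintro ⟨⟨h1, h2⟩, h3, h4⟩
      rw [Nat.le_div_iff_mul_le (by omega)] at h2
      refine ⟨⟨h1, ?_⟩, h3, ?_⟩
      · nlinarith
      · rw [Nat.le_div_iff_mul_le (by omega)]
        linarith [mul_comm b c]
  rw [h1, ← sum_add_distrib]
  refine sum_congr rfl fun b hb => ?_
  rw [← sum_add_distrib]
  refine sum_congr rfl fun c hc => ?_
  rw [mem_Icc] at hb hc
  have h2 : c * b ≤ N := (Nat.le_div_iff_mul_le (by omega)).1 hc.2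
  by_cases h3 : b * b ≤ N
  · rw [if_pos h3, if_neg (by omega), add_zero]
  · have h4 : c * c ≤ N := by
      have : c < b := by
        by_contra hcon
        push Not at hcon
        nlinarith
      nlinarith
    rw [if_neg h3, if_pos ⟨h4, by omega⟩, zero_add]

lemma ev_log_rpow' (k : ℕ) (c a : ℝ) (ha : 0 < a) :
    ∃ x0 : ℕ, ∀ x : ℕ, x0 ≤ x → c * Real.log x ^ k ≤ (x : ℝ) ^ a := by
  have h := (isLittleO_log_rpow_rpow_atTop (k : ℝ) ha).bound (show 0 < 1 / (|c| + 1) by positivity)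
  have h2 := (tendsto_natCast_atTop_atTop (R := ℝ)).eventually h
  obtain ⟨x0, hx0⟩ := Filter.eventually_atTop.1 h2
  refine ⟨max x0 1, fun x hx => ?_⟩
  have h3 := hx0 x (le_trans (le_max_left _ _) hx)
  have hx1 : (1 : ℝ) ≤ x := by exact_mod_cast (le_trans (le_max_right _ _) hx)
  have hl : 0 ≤ Real.log x := Real.log_nonneg hx1
  rw [Real.norm_of_nonneg (by positivity), Real.norm_of_nonneg (by positivity), Real.rpow_natCast] at h3
  have h4 : c ≤ |c| + 1 := by have := le_abs_self c; linarith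
  calc c * Real.log x ^ k ≤ (|c| + 1) * Real.log x ^ k := mul_le_mul_of_nonneg_right h4 (by positivity)
    _ ≤ (|c| + 1) * (1 / (|c| + 1) * (x : ℝ) ^ a) := mul_le_mul_of_nonneg_left h3 (by positivity)
    _ = (x : ℝ) ^ a := by field_simp

/-- the type I bound -/
lemma ty1 {q N D k C : ℕ} [NeZero q] {K K0 : ℝ} {Y : ℕ → ℝ} (hK : 1 ≤ K) (hK0 : K0 ≤ K) (hN : 4 ≤ N)
    (hL : 1 ≤ Real.log N) (hD : ((D : ℝ)) * D ≤ N)
    (hX : ∀ X : ℝ, 0 ≤ X → X * X ≤ N → q * X * Real.log N ^ C ≤ N)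
    (hk1 : Real.log N ^ C ≤ k) (hk2 : (q : ℝ) * k * Real.log N ^ C ≤ N)
    (hY : ∑ c ∈ Icc 1 D, Y c ≤ K0 * ((N : ℝ) / k + q * D + q * k) * (1 + Real.log N) ^ 2) :
    ∑ c ∈ Icc 1 D, Y c ≤ 12 * K * Real.log N ^ 2 * ((N : ℝ) / Real.log N ^ C) := by
  obtain ⟨L, hLd⟩ : ∃ L, L = Real.log (N : ℝ) := ⟨_, rfl⟩
  rw [← hLd] at hL hX hk1 hk2 hY ⊢
  have hL0 : 0 < L := by linarith
  have hNr : (4 : ℝ) ≤ N := by exact_mod_cast hN
  have hN0 : (0 : ℝ) < N := by linarith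
  have hLC : 0 < L ^ C := by positivity
  obtain ⟨R, hR⟩ : ∃ R, R = (N : ℝ) / L ^ C := ⟨_, rfl⟩
  have hR0 : 0 < R := by rw [hR]; positivity
  have t1 : (q : ℝ) * D ≤ R := by
    rw [hR, le_div_iff₀ hLC]
    exact hX D (Nat.cast_nonneg _) hD
  have t2 : (N : ℝ) / k ≤ R := by
    rw [hR]
    exact div_le_div_of_nonneg_left hN0.le hLC hk1
  have t4 : (q : ℝ) * k ≤ R := by
    rw [hR, le_div_iff₀ hLC]
    exact hk2
  rw [← hR]
  refine hY.trans ?_
  have h1 : (0 : ℝ) ≤ (N : ℝ) / k + q * D + q * k := by positivity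
  calc K0 * ((N : ℝ) / k + q * D + q * k) * (1 + L) ^ 2 ≤ K * ((N : ℝ) / k + q * D + q * k) * (1 + L) ^ 2 := by
        gcongr
    _ ≤ K * (3 * R) * (2 * L) ^ 2 := by
        gcongr
        · linarith
        · linarith
    _ = 12 * K * L ^ 2 * R := by ring

theorem minF (h1 : VauStm) (h2 : TiMinStm) (h3 : BilMinStm) (h4 : LshStm) : MinFStm := by
  obtain ⟨K1, hK1⟩ := h2
  obtain ⟨K2, hK2⟩ := h3
  intro A ρ hρ
  obtain ⟨C, hC⟩ : ∃ C, C = 2 * A + 20 := ⟨_, rfl⟩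
  obtain ⟨K, hKd⟩ : ∃ K, K = |K1| + |K2| + 1 := ⟨_, rfl⟩
  have hK : 1 ≤ K := by
    rw [hKd]
    have := abs_nonneg K1
    have := abs_nonneg K2
    linarith
  have hKK1 : K1 ≤ K := by
    rw [hKd]
    have := le_abs_self K1
    have := abs_nonneg K2
    linarith
  have hKK2 : K2 ≤ K := by
    rw [hKd]
    have := le_abs_self K2
    have := abs_nonneg K1
    linarith
  obtain ⟨n1, hn1⟩ := ev_log_rpow' C 1 ρ hρ
  obtain ⟨n2, hn2⟩ := ev_log_rpow' (4 * C) 256 1 one_pos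
  obtain ⟨n3, hn3⟩ := ev_L' (4096 * K)
  refine ⟨C, max (max n1 n2) (max n3 4), fun N hN q _ hq z r hD100 hV k h β hk1 hk2 hcop hβ => ?_⟩
  have hN1 : n1 ≤ N := le_trans (le_trans (le_max_left _ _) (le_max_left _ _)) hN
  have hN2 : n2 ≤ N := le_trans (le_trans (le_max_right _ _) (le_max_left _ _)) hN
  have hN3 : n3 ≤ N := le_trans (le_trans (le_max_left _ _) (le_max_right _ _)) hN
  have hN4 : 4 ≤ N := le_trans (le_trans (le_max_right _ _) (le_max_right _ _)) hN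
  have e1 := hn1 N hN1
  have e2 := hn2 N hN2
  have e3 := hn3 N hN3
  obtain ⟨L, hLd⟩ : ∃ L, L = Real.log (N : ℝ) := ⟨_, rfl⟩
  rw [← hLd] at hV hk1 hk2 e1 e2 e3 ⊢
  have hL1 : 4096 ≤ L := by linarith
  have hL1' : 1 ≤ L := by linarith
  have hL0 : 0 < L := by linarith
  have hNr : (4 : ℝ) ≤ N := by exact_mod_cast hN4
  have hN0 : (0 : ℝ) < N := by linarith
  have hLC : 0 < L ^ C := by positivity
  have hLC1 : 1 ≤ L ^ C := one_le_pow₀ hL1'
  have hq0 : 1 ≤ q := Nat.pos_of_ne_zero (NeZero.ne q)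
  have hqr : (1 : ℝ) ≤ q := by exact_mod_cast hq0
  have hX : ∀ X : ℝ, 0 ≤ X → X * X ≤ N → q * X * L ^ C ≤ N := by
    intro X hX0 hXN
    have i1 : X ≤ (N : ℝ) ^ (1 / 2 : ℝ) := by
      rw [← Real.sqrt_eq_rpow]
      exact Real.le_sqrt_of_sq_le (by rw [sq]; exact hXN)
    have i2 : L ^ C ≤ (N : ℝ) ^ ρ := by linarith
    calc (q : ℝ) * X * L ^ C ≤ (N : ℝ) ^ (1 / 2 - ρ) * (N : ℝ) ^ (1 / 2 : ℝ) * (N : ℝ) ^ ρ := by
          gcongr
      _ = (N : ℝ) := by
          rw [← Real.rpow_add hN0, ← Real.rpow_add hN0]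
          have : (1 / 2 - ρ + 1 / 2 + ρ : ℝ) = 1 := by ring
          rw [this, Real.rpow_one]
  have hkpos : (0 : ℝ) < k := by linarith
  have hk : 1 ≤ k := by
    have : (0 : ℝ) < (k : ℝ) := hkpos
    exact_mod_cast this
  have hkr : (1 : ℝ) ≤ k := by exact_mod_cast hk
  have hkN : k ≤ N := by
    have : (k : ℝ) ≤ N := by
      calc (k : ℝ) = 1 * k * 1 := by ring
        _ ≤ q * k * L ^ C := by gcongr
        _ ≤ N := hk2
    exact_mod_cast this
  have hqN : q ≤ N := by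
    have : (q : ℝ) ≤ N := by
      calc (q : ℝ) = q * 1 * 1 := by ring
        _ ≤ q * 1 * L ^ C := by gcongr
        _ ≤ N := hX 1 zero_le_one (by linarith)
    exact_mod_cast this
  obtain ⟨R, hR⟩ : ∃ R, R = (N : ℝ) / L ^ C := ⟨_, rfl⟩
  have hR0 : 0 < R := by rw [hR]; positivity
  obtain ⟨E, hE⟩ : ∃ E : ℕ → EuclideanSpace ℂ (DirichletCharacter ℂ q),
    E = ev (univ : Finset (DirichletCharacter ℂ q)) β := ⟨_, rfl⟩
  -- the sieve model
  have hlsh : ‖∑ n ∈ Icc 1 N, (lsh z r n) • E n‖ ≤ L ^ 4 * R := by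
    obtain ⟨D, hDd⟩ : ∃ D, D = (z + 1) ^ r := ⟨_, rfl⟩
    have hD1 : 1 ≤ D := by
      rw [hDd]
      exact Nat.one_le_pow _ _ (by omega)
    have hDD : D * D ≤ N := by
      rw [← hDd] at hD100
      have i1 : D ^ 100 ≤ N := by exact_mod_cast hD100
      have i2 : D ^ 2 ≤ D ^ 100 := Nat.pow_le_pow_right hD1 (by norm_num)
      rw [← sq]
      omega
    have hDN : D ≤ N := le_trans (Nat.le_mul_self D) hDD
    have hDDr : (D : ℝ) * D ≤ N := by exact_mod_cast hDD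
    obtain ⟨Y, hY1, hY2⟩ := hK1 q N D k h β hD1 hDN hqN hk hkN hcop hβ
    have j1 := ty1 hK hKK1 hN4 (by rw [← hLd]; exact hL1') hDDr (by rw [← hLd]; exact hX)
      (by rw [← hLd]; exact hk1) (by rw [← hLd]; exact hk2) hY2
    rw [← hLd, ← hR] at j1
    have j2 := h4 _ E N z r Y (by
      intro d hd
      rw [← hDd] at hd
      rw [hE]
      exact hY1 d hd (N / d) le_rfl)
    rw [← hDd] at j2
    have j3 : 0 ≤ ∑ d ∈ Icc 1 D, Y d := by
      apply sum_nonneg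
      intro d hd
      exact (norm_nonneg _).trans (hY1 d hd 0 (Nat.zero_le _))
    calc ‖∑ n ∈ Icc 1 N, (lsh z r n) • E n‖ ≤ (Vz z)⁻¹ * ∑ d ∈ Icc 1 D, Y d := j2
      _ ≤ L * ∑ d ∈ Icc 1 D, Y d := by gcongr
      _ ≤ L * (12 * K * L ^ 2 * R) := by gcongr
      _ = (12 * K) * (L ^ 3 * R) := by ring
      _ ≤ L * (L ^ 3 * R) := by
          gcongr
          linarith
      _ = L ^ 4 * R := by ring
  -- the parameter
  obtain ⟨U, hUd⟩ : ∃ U, U = ⌈2 * L ^ C⌉₊ := ⟨_, rfl⟩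
  have hU1 : 2 * L ^ C ≤ U := by rw [hUd]; exact Nat.le_ceil _
  have hU3 : (U : ℝ) ≤ 4 * L ^ C := by
    rw [hUd]
    have := (Nat.ceil_lt_add_one (show 0 ≤ 2 * L ^ C by positivity)).le
    linarith
  have hU2 : 2 ≤ U := by
    have : (2 : ℝ) ≤ U := by linarith
    exact_mod_cast this
  have hU4 : (U : ℝ) ^ 4 ≤ N := by
    calc (U : ℝ) ^ 4 ≤ (4 * L ^ C) ^ 4 := by gcongr
      _ = 256 * L ^ (4 * C) := by rw [mul_pow, ← pow_mul, mul_comm C 4]; norm_num
      _ ≤ (N : ℝ) ^ (1 : ℝ) := e2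
      _ = N := Real.rpow_one _
  have hUr : (2 : ℝ) ≤ U := by exact_mod_cast hU2
  have hUU : ((U * U : ℕ) : ℝ) * (U * U : ℕ) ≤ N := by
    push_cast
    calc (U : ℝ) * U * (U * U) = U ^ 4 := by ring
      _ ≤ N := hU4
  have hUUN : U * U ≤ N := by
    have : (U * U) * (U * U) ≤ N := by exact_mod_cast hUU
    exact le_trans (Nat.le_mul_self (U * U)) this
  -- type I for the von Mangoldt function
  have hvau : ‖∑ n ∈ Icc 1 N, (ArithmeticFunction.vonMangoldt n) • E n -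
      ∑ b ∈ Icc 1 N, ∑ c ∈ Icc 1 (N / b), (bt U b * lv U c) • E (b * c)‖ ≤ L * R + L ^ 4 * R := by
    obtain ⟨Y, hY1, hY2⟩ := hK1 q N (U * U) k h β (Nat.mul_pos (by omega) (by omega)) hUUN hqN hk hkN hcop hβ
    have j1 := ty1 hK hKK1 hN4 (by rw [← hLd]; exact hL1') hUU (by rw [← hLd]; exact hX)
      (by rw [← hLd]; exact hk1) (by rw [← hLd]; exact hk2) hY2
    rw [← hLd, ← hR] at j1
    have j2 := h1 _ E N U Y (by omega) hUUN (by rw [hE]; exact hY1)
    refine j2.trans (add_le_add ?_ ?_)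
    · have j3 : ∀ n ∈ Icc 1 U, ArithmeticFunction.vonMangoldt n * ‖E n‖ ≤ L * q := by
        intro n hn
        rw [mem_Icc] at hn
        have hn1 : (1 : ℝ) ≤ n := by exact_mod_cast hn.1
        have hn2 : (n : ℝ) ≤ N := by
          have : n ≤ N := le_trans hn.2 (le_trans (Nat.le_mul_self U) hUUN)
          exact_mod_cast this
        have k1 : ArithmeticFunction.vonMangoldt n ≤ L := by
          refine (ArithmeticFunction.vonMangoldt_le_log).trans ?_
          rw [hLd]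
          exact Real.log_le_log (by linarith) hn2
        have k2 : ‖E n‖ ≤ q := by
          rw [hE]
          refine (norm_ev_le _ _ _).trans ?_
          rw [Real.sqrt_le_left (by linarith), sq]
          exact le_mul_of_one_le_left (by linarith) hqr
        exact mul_le_mul k1 k2 (norm_nonneg _) hL0.le
      refine (sum_le_sum j3).trans ?_
      rw [sum_const, Nat.card_Icc, nsmul_eq_mul, Nat.add_sub_cancel]
      have j4 : (q : ℝ) * U * L ^ C ≤ N := hX U (by positivity) (by exact_mod_cast hUUN)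
      have j5 : (q : ℝ) * U ≤ R := by
        rw [hR, le_div_iff₀ hLC]
        exact j4
      calc (U : ℝ) * (L * q) = L * (q * U) := by ring
        _ ≤ L * R := by gcongr
    · rw [← hLd]
      calc 3 * (1 + L) * ∑ c ∈ Icc 1 (U * U), Y c ≤ 3 * (1 + L) * (12 * K * L ^ 2 * R) := by gcongr
        _ ≤ 3 * (2 * L) * (12 * K * L ^ 2 * R) := by
            gcongr
            linarith
        _ = (72 * K) * (L ^ 3 * R) := by ring
        _ ≤ L * (L ^ 3 * R) := by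
            gcongr
            linarith
        _ = L ^ 4 * R := by ring
  -- the bilinear part
  have hBB : ∀ (M : ℕ) (a b : ℕ → ℂ), 1 ≤ M → M ≤ N →
      ‖∑ m ∈ Ioc M (2 * M), ∑ j ∈ Icc 1 (N / m),
        (a m * b j) • ev (univ : Finset (DirichletCharacter ℂ q)) β (m * j)‖ ^ 2 ≤
      K * (∑ m ∈ Ioc M (2 * M), ‖a m‖ ^ 2) * (∑ j ∈ Icc 1 (N / M), ‖b j‖ ^ 2) *
      (q * (M + (N : ℝ) / (q * k) + (N : ℝ) / (q * M) + k) * (1 + Real.log k)) := by
    intro M a b hM1 hMN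
    refine (hK2 q N M k h β a b hM1 hMN hk hcop hβ).trans ?_
    have : 0 ≤ Real.log k := Real.log_nonneg hkr
    gcongr
  have hloc : ∀ X Z : ℕ → ℝ, (∀ m ∈ Icc 1 N, |X m| ≤ L * (m.divisors.card : ℝ)) →
      (∀ m ∈ Icc 1 N, |Z m| ≤ L * (m.divisors.card : ℝ)) → (∀ m, m ≤ U → X m = 0) →
      (∀ m, N < m * m → X m = 0) →
      ‖∑ m ∈ Icc 1 N, ∑ j ∈ Icc 1 (N / m), (X m * Z j) • E (m * j)‖ ≤
        3 * L * Real.sqrt (L ^ 14 * ((N : ℝ) ^ 2 / L ^ C)) := by
    intro X Z hX1 hZ1 hX0 hX2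
    have j1 := bil (U := U) (C := C) hK hBB hN4 hk hkN (by rw [← hLd]; exact e3) (by rw [← hLd]; exact hX)
      (by rw [← hLd]; exact hk1) (by rw [← hLd]; exact hk2) hU2 (by rw [← hLd]; exact hU1)
      (fun m => ((X m : ℝ) : ℂ)) (fun m => ((Z m : ℝ) : ℂ))
      (by
        intro m hm
        rw [← hLd, Complex.norm_real, Real.norm_eq_abs]
        exact hX1 m hm)
      (by
        intro m hm
        rw [← hLd, Complex.norm_real, Real.norm_eq_abs]
        exact hZ1 m hm)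
      (by intro m hm; simp [hX0 m hm])
      (by intro m hm; simp [hX2 m hm])
    rw [← hLd] at j1
    have j2 : ∑ m ∈ Icc 1 N, ∑ j ∈ Icc 1 (N / m), (X m * Z j) • E (m * j) =
        ∑ m ∈ Icc 1 N, ∑ j ∈ Icc 1 (N / m), (((X m : ℝ) : ℂ) * ((Z j : ℝ) : ℂ)) •
          ev (univ : Finset (DirichletCharacter ℂ q)) β (m * j) := by
      refine sum_congr rfl fun m _ => sum_congr rfl fun j _ => ?_
      rw [← Complex.ofReal_mul, csm, hE]
    rw [j2]
    exact j1
  have hbt : ∀ m ∈ Icc 1 N, |bt U m| ≤ L * (m.divisors.card : ℝ) := by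
    intro m hm
    refine (abs_bt_le U m).trans ?_
    have : (0 : ℝ) ≤ (m.divisors.card : ℝ) := Nat.cast_nonneg _
    nlinarith
  have hlv : ∀ m ∈ Icc 1 N, |lv U m| ≤ L * (m.divisors.card : ℝ) := by
    intro m hm
    rw [hLd]
    exact abs_lv_le hm
  have hbil : ‖∑ b ∈ Icc 1 N, ∑ c ∈ Icc 1 (N / b), (bt U b * lv U c) • E (b * c)‖ ≤
      6 * L * Real.sqrt (L ^ 14 * ((N : ℝ) ^ 2 / L ^ C)) := by
    rw [split]
    refine (norm_add_le _ _).trans ?_
    have j1 := hloc (fun m => if m * m ≤ N then bt U m else 0) (lv U)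
      (by
        intro m hm
        split_ifs
        · exact hbt m hm
        · rw [abs_zero]; positivity)
      hlv
      (by
        intro m hm
        simp only [bt_zero hm, ite_self])
      (by
        intro m hm
        rw [if_neg (by omega)])
    have j2 := hloc (fun m => if m * m ≤ N then lv U m else 0) (fun m => if N < m * m then bt U m else 0)
      (by
        intro m hm
        split_ifs
        · exact hlv m hm
        · rw [abs_zero]; positivity)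
      (by
        intro m hm
        split_ifs
        · exact hbt m hm
        · rw [abs_zero]; positivity)
      (by
        intro m hm
        simp only [lv_zero hm, ite_self])
      (by
        intro m hm
        rw [if_neg (by omega)])
    have k1 : ∑ b ∈ Icc 1 N, ∑ c ∈ Icc 1 (N / b), (if b * b ≤ N then (bt U b * lv U c) • E (b * c) else 0) =
        ∑ m ∈ Icc 1 N, ∑ j ∈ Icc 1 (N / m), ((if m * m ≤ N then bt U m else 0) * lv U j) • E (m * j) := by
      refine sum_congr rfl fun m _ => sum_congr rfl fun j _ => ?_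
      split_ifs
      · rfl
      · rw [zero_mul, zero_smul]
    have k2 : ∑ c ∈ Icc 1 N, ∑ b ∈ Icc 1 (N / c), (if c * c ≤ N ∧ N < b * b then (bt U b * lv U c) • E (b * c) else 0) =
        ∑ m ∈ Icc 1 N, ∑ j ∈ Icc 1 (N / m), ((if m * m ≤ N then lv U m else 0) *
          (if N < j * j then bt U j else 0)) • E (m * j) := by
      refine sum_congr rfl fun m _ => sum_congr rfl fun j _ => ?_
      by_cases c1 : m * m ≤ N
      · by_cases c2 : N < j * j
        · rw [if_pos ⟨c1, c2⟩, if_pos c1, if_pos c2, mul_comm (lv U m), mul_comm m j]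
        · rw [if_neg (fun hh => c2 hh.2), if_neg c2, mul_zero, zero_smul]
      · rw [if_neg (fun hh => c1 hh.1), if_neg c1, zero_mul, zero_smul]
    rw [k1, k2]
    refine (add_le_add j1 j2).trans (le_of_eq ?_)
    ring
  -- the end
  have hsq : Real.sqrt (L ^ 14 * ((N : ℝ) ^ 2 / L ^ C)) = N / L ^ (A + 3) := by
    have : L ^ 14 * ((N : ℝ) ^ 2 / L ^ C) = (N / L ^ (A + 3)) ^ 2 := by
      rw [hC]
      have i1 : L ^ (2 * A + 20) = L ^ 14 * (L ^ (A + 3)) ^ 2 := by ring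
      rw [i1]
      field_simp
    rw [this, Real.sqrt_sq (by positivity)]
  have hR2 : L ^ 4 * R ≤ N / L ^ (A + 2) := by
    rw [hR, hC]
    have i1 : L ^ (2 * A + 20) = L ^ 4 * (L ^ (A + 2) * L ^ (A + 14)) := by ring
    rw [i1, mul_div_assoc', mul_div_mul_left _ _ (by positivity), div_mul_eq_div_div]
    exact div_le_self (by positivity) (one_le_pow₀ hL1')
  have hR3 : L * R ≤ L ^ 4 * R := by
    have : L ≤ L ^ 4 := by
      calc L = L ^ 1 := (pow_one L).symm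
        _ ≤ L ^ 4 := pow_le_pow_right₀ hL1' (by norm_num)
    gcongr
  rw [hsq] at hbil
  have hF : ∑ n ∈ Icc 1 N, (FF z r n) • ev (univ : Finset (DirichletCharacter ℂ q)) β n =
      ((∑ n ∈ Icc 1 N, (ArithmeticFunction.vonMangoldt n) • E n -
      ∑ b ∈ Icc 1 N, ∑ c ∈ Icc 1 (N / b), (bt U b * lv U c) • E (b * c)) +
      ∑ b ∈ Icc 1 N, ∑ c ∈ Icc 1 (N / b), (bt U b * lv U c) • E (b * c)) -
      ∑ n ∈ Icc 1 N, (lsh z r n) • E n := by
    rw [sub_add_cancel, ← sum_sub_distrib]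
    refine sum_congr rfl fun n _ => ?_
    unfold FF
    rw [csm, sub_smul, hE]
  rw [sum_cs, hF]
  have hnorm : ‖((∑ n ∈ Icc 1 N, (ArithmeticFunction.vonMangoldt n) • E n -
      ∑ b ∈ Icc 1 N, ∑ c ∈ Icc 1 (N / b), (bt U b * lv U c) • E (b * c)) +
      ∑ b ∈ Icc 1 N, ∑ c ∈ Icc 1 (N / b), (bt U b * lv U c) • E (b * c)) -
      ∑ n ∈ Icc 1 N, (lsh z r n) • E n‖ ≤ N / L ^ A := by
    have i1 : 6 * L * (N / L ^ (A + 3)) = 6 * (N / L ^ (A + 2)) := by
      have : L ^ (A + 3) = L * L ^ (A + 2) := by ring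
      rw [this]
      field_simp
    have i2 : N / L ^ A = L ^ 2 * (N / L ^ (A + 2)) := by
      have : L ^ (A + 2) = L ^ 2 * L ^ A := by ring
      rw [this]
      field_simp
    have i3 : 0 < (N : ℝ) / L ^ (A + 2) := by positivity
    refine (norm_sub_le _ _).trans ?_
    refine (add_le_add (norm_add_le _ _) le_rfl).trans ?_
    rw [i2]
    rw [i1] at hbil
    have i4 : (9 : ℝ) ≤ L ^ 2 := by nlinarith
    have i5 : 9 * ((N : ℝ) / L ^ (A + 2)) ≤ L ^ 2 * (N / L ^ (A + 2)) := by gcongr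
    linarith
  calc _ ≤ ((N : ℝ) / L ^ A) ^ 2 := pow_le_pow_left₀ (norm_nonneg _) hnorm 2
    _ = (N : ℝ) ^ 2 / L ^ A / L ^ A := by rw [div_pow]; field_simp
    _ ≤ (N : ℝ) ^ 2 / L ^ A := div_le_self (by positivity) (one_le_pow₀ hL1')

end Pool.Agent.Y510.GJ
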